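import Mathlib

open FirstOrder FirstOrder.Language

namespace Pool.Agent.Results.MP_a6fba8_lc.NotModular

/-- conditional rule: `conds ⇒ lhs → rhs`, each pair in `conds` is a joinability condition -/
structure Rule (L : FirstOrder.Language.{0, 0}) where
  lhs : L.Term ℕ
  rhs : L.Term ℕ
  conds : List (L.Term ℕ × L.Term ℕ)

/-- closure of a relation on terms under contexts -/
inductive Ctx {L : FirstOrder.Language.{0, 0}} (r : L.Term ℕ → L.Term ℕ → Prop) :
    L.Term ℕ → L.Term ℕ → Prop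
  | root {s t : L.Term ℕ} : r s t → Ctx r s t
  | arg {l : ℕ} (f : L.Functions l) (ts : Fin l → L.Term ℕ) (i : Fin l) (u : L.Term ℕ) :
      Ctx r (ts i) u → Ctx r (Term.func f ts) (Term.func f (Function.update ts i u))

/-- level `n` rewrite relation of a join system -/
def Step {L : FirstOrder.Language.{0, 0}} (R : Set (Rule L)) : ℕ → L.Term ℕ → L.Term ℕ → Prop
  | 0 => fun _ _ => False
  | n + 1 => Ctx fun s t => ∃ ρ ∈ R, ∃ σ : ℕ → L.Term ℕ,
      s = ρ.lhs.subst σ ∧ t = ρ.rhs.subst σ ∧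
      ∀ p ∈ ρ.conds, ∃ w, Relation.ReflTransGen (Step R n) (p.1.subst σ) w ∧
        Relation.ReflTransGen (Step R n) (p.2.subst σ) w

def Rew {L : FirstOrder.Language.{0, 0}} (R : Set (Rule L)) (s t : L.Term ℕ) : Prop := ∃ n, Step R n s t

def UN {L : FirstOrder.Language.{0, 0}} (R : Set (Rule L)) : Prop :=
  ∀ s t : L.Term ℕ, (∀ u, ¬ Rew R s u) → (∀ u, ¬ Rew R t u) →
    Relation.EqvGen (Rew R) s t → s = t

/-- finitely many rules, left sides are not variables, no extra variables -/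
def Proper {L : FirstOrder.Language.{0, 0}} (R : Set (Rule L)) : Prop :=
  R.Finite ∧ ∀ ρ ∈ R, (∀ x, ρ.lhs ≠ Term.var x) ∧ ρ.rhs.varFinset ⊆ ρ.lhs.varFinset ∧
    ∀ p ∈ ρ.conds, p.1.varFinset ⊆ ρ.lhs.varFinset ∧ p.2.varFinset ⊆ ρ.lhs.varFinset

def Rule.map {L L' : FirstOrder.Language.{0, 0}} (φ : L →ᴸ L') (ρ : Rule L) : Rule L' :=
  ⟨φ.onTerm ρ.lhs, φ.onTerm ρ.rhs, ρ.conds.map fun p => (φ.onTerm p.1, φ.onTerm p.2)⟩

/-- disjoint union over the sum of the signatures -/
def disjUnion {L L' : FirstOrder.Language.{0, 0}} (R : Set (Rule L)) (S : Set (Rule L')) :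
    Set (Rule (L.sum L')) :=
  Rule.map LHom.sumInl '' R ∪ Rule.map LHom.sumInr '' S

inductive S1 : ℕ → Type
  | k (i : Fin 7) : S1 0
  | F : S1 1

inductive S2 : ℕ → Type
  | o : S2 2

def L1 : FirstOrder.Language.{0, 0} := ⟨S1, fun _ => Empty⟩
def L2 : FirstOrder.Language.{0, 0} := ⟨S2, fun _ => Empty⟩

def K (i : Fin 7) : L1.Term ℕ := Term.func (L := L1) (S1.k i) ![]
def FF (t : L1.Term ℕ) : L1.Term ℕ := Term.func (L := L1) S1.F ![t]
def OO (s t : L2.Term ℕ) : L2.Term ℕ := Term.func (L := L2) S2.o ![s, t]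

def R1 : Set (Rule L1) :=
  {⟨K 0, K 2, []⟩, ⟨K 0, K 4, []⟩, ⟨K 1, K 4, []⟩, ⟨K 1, K 3, []⟩, ⟨K 2, K 2, []⟩,
   ⟨K 3, K 3, []⟩, ⟨K 4, K 4, []⟩, ⟨FF (Term.var 0), K 5, []⟩,
   ⟨FF (Term.var 0), K 6, [(Term.var 0, K 2), (Term.var 0, K 3)]⟩}

def R2 : Set (Rule L2) :=
  {⟨OO (Term.var 0) (Term.var 1), Term.var 0, [(Term.var 0, Term.var 1)]⟩,
   ⟨OO (Term.var 0) (Term.var 1), Term.var 1, [(Term.var 0, Term.var 1)]⟩}

theorem proper1 : Proper R1 := by
  refine ⟨by unfold R1; exact Set.toFinite _, ?_⟩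
  intro ρ h
  simp only [R1, Set.mem_insert_iff, Set.mem_singleton_iff] at h
  rcases h with rfl | rfl | rfl | rfl | rfl | rfl | rfl | rfl | rfl <;>
    simp [K, FF, Term.varFinset]

theorem proper2 : Proper R2 := by
  refine ⟨by unfold R2; exact Set.toFinite _, ?_⟩
  intro ρ h
  simp only [R2, Set.mem_insert_iff, Set.mem_singleton_iff] at h
  rcases h with rfl | rfl <;>
    simp [OO, Term.varFinset, Finset.subset_iff, Fin.exists_fin_two]

def hd : L1.Term ℕ → ℕ
  | Term.var x => x + 8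
  | Term.func (S1.k i) _ => i.1
  | Term.func S1.F _ => 7

theorem hd_K (i : Fin 7) (σ : ℕ → L1.Term ℕ) : hd ((K i).subst σ) = i.1 := rfl
theorem hd_F (t : L1.Term ℕ) (σ : ℕ → L1.Term ℕ) : hd ((FF t).subst σ) = 7 := rfl

def ok (a b : ℕ) : Prop :=
  (a = 0 ∧ b = 2) ∨ (a = 0 ∧ b = 4) ∨ (a = 1 ∧ b = 4) ∨ (a = 1 ∧ b = 3) ∨ (a = 2 ∧ b = 2) ∨
  (a = 3 ∧ b = 3) ∨ (a = 4 ∧ b = 4) ∨ (a = 7 ∧ b = 5) ∨ (a = 7 ∧ b = 7)

theorem step1 (n : ℕ) (s t : L1.Term ℕ) (h : Step R1 n s t) :
    ok (hd s) (hd t) ∨ (hd s = 7 ∧ hd t = 6 ∧ ∃ m u v w v' w', hd v = 2 ∧ hd v' = 3 ∧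
      Relation.ReflTransGen (Step R1 m) u w ∧ Relation.ReflTransGen (Step R1 m) v w ∧
      Relation.ReflTransGen (Step R1 m) u w' ∧ Relation.ReflTransGen (Step R1 m) v' w') := by
  cases n with
  | zero => exact h.elim
  | succ n =>
    cases h with
    | root h =>
      obtain ⟨ρ, hρ, σ, rfl, rfl, hc⟩ := h
      simp only [R1, Set.mem_insert_iff, Set.mem_singleton_iff] at hρ
      rcases hρ with rfl | rfl | rfl | rfl | rfl | rfl | rfl | rfl | rfl
      iterate 8 (left; simp [hd_K, hd_F, ok])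
      right
      obtain ⟨w, h1, h2⟩ := hc (Term.var 0, K 2) (by simp)
      obtain ⟨w', h3, h4⟩ := hc (Term.var 0, K 3) (by simp)
      exact ⟨rfl, rfl, n, _, _, w, _, w', rfl, rfl, h1, h2, h3, h4⟩
    | arg f ts i u _ =>
      left
      cases f with
      | k j => exact i.elim0
      | F => simp [hd, ok]

theorem star1 (n : ℕ) (s t : L1.Term ℕ) (h : Relation.ReflTransGen (Step R1 n) s t) :
    (hd s = 2 → hd t = 2) ∧ (hd s = 3 → hd t = 3) ∧ (hd t = 2 ∨ hd t = 0 → hd s = 2 ∨ hd s = 0) ∧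
      (hd t = 3 ∨ hd t = 1 → hd s = 3 ∨ hd s = 1) := by
  induction h with
  | refl => simp
  | tail _ h2 ih =>
    rcases step1 _ _ _ h2 with h | ⟨h, h', -⟩
    · unfold ok at h
      omega
    · omega

theorem step1' (n : ℕ) (s t : L1.Term ℕ) (h : Step R1 n s t) : ok (hd s) (hd t) := by
  rcases step1 n s t h with h | ⟨-, -, m, u, v, w, v', w', h1, h2, h3, h4, h5, h6⟩
  · exact h
  · have a := star1 _ _ _ h3
    have b := star1 _ _ _ h4
    have c := star1 _ _ _ h5
    have d := star1 _ _ _ h6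
    omega

def cl (a : ℕ) : ℕ := if a ≤ 4 then 0 else if a = 7 then 5 else a

theorem K_eq (i : Fin 7) (ts : Fin 0 → L1.Term ℕ) : Term.func (L := L1) (S1.k i) ts = K i := by
  unfold K; congr 1; exact Subsingleton.elim _ _

theorem red1 (i j : Fin 7) (h : (⟨K i, K j, []⟩ : Rule L1) ∈ R1) : Rew R1 (K i) (K j) :=
  ⟨1, Ctx.root ⟨_, h, Term.var, (K_eq _ _).symm, (K_eq _ _).symm, by simp⟩⟩

theorem nf1 (s : L1.Term ℕ) (h : ∀ u, ¬ Rew R1 s u) :
    (∃ x, s = Term.var x) ∨ s = K 5 ∨ s = K 6 := by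
  cases s with
  | var x => exact Or.inl ⟨x, rfl⟩
  | func f ts =>
    right
    cases f with
    | k i =>
      rw [K_eq] at h ⊢
      fin_cases i
      · exact (h _ (red1 0 2 (by simp [R1]))).elim
      · exact (h _ (red1 1 4 (by simp [R1]))).elim
      · exact (h _ (red1 2 2 (by simp [R1]))).elim
      · exact (h _ (red1 3 3 (by simp [R1]))).elim
      · exact (h _ (red1 4 4 (by simp [R1]))).elim
      · exact Or.inl rfl
      · exact Or.inr rfl
    | F =>
      refine (h (K 5) ⟨1, Ctx.root ⟨⟨FF (Term.var 0), K 5, []⟩, by simp [R1], fun _ => ts 0, ?_,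
        (K_eq _ _).symm, by simp⟩⟩).elim
      simp only [FF, Term.subst]
      congr 1
      ext i; fin_cases i; rfl

theorem un1 : UN R1 := by
  intro s t hs ht h
  have key : cl (hd s) = cl (hd t) := by
    clear hs ht
    induction h with
    | rel a b h =>
      obtain ⟨n, h⟩ := h
      have := step1' n a b h
      unfold ok at this
      rcases this with h | h | h | h | h | h | h | h | h <;> simp [cl, h.1, h.2]
    | refl => rfl
    | symm _ _ _ ih => exact ih.symm
    | trans _ _ _ _ _ ih1 ih2 => exact ih1.trans ih2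
  rcases nf1 s hs with ⟨x, rfl⟩ | rfl | rfl <;> rcases nf1 t ht with ⟨y, rfl⟩ | rfl | rfl <;>
    simp [cl, hd, K] at key ⊢ <;> omega

open Classical in
noncomputable def nf : L2.Term ℕ → L2.Term ℕ
  | Term.var x => Term.var x
  | Term.func S2.o ts => if nf (ts 0) = nf (ts 1) then nf (ts 0) else OO (nf (ts 0)) (nf (ts 1))

theorem step2 (n : ℕ) : ∀ s t : L2.Term ℕ, Step R2 n s t → nf s = nf t := by
  induction n with
  | zero => intro s t h; exact h.elim
  | succ n ih =>
    have star : ∀ s t : L2.Term ℕ, Relation.ReflTransGen (Step R2 n) s t → nf s = nf t := by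
      intro s t h
      induction h with
      | refl => rfl
      | tail _ h2 ih2 => exact ih2.trans (ih _ _ h2)
    intro s t h
    induction h with
    | root h =>
      obtain ⟨ρ, hρ, σ, rfl, rfl, hc⟩ := h
      simp only [R2, Set.mem_insert_iff, Set.mem_singleton_iff] at hρ
      rcases hρ with rfl | rfl
      all_goals
        obtain ⟨w, h1, h2⟩ := hc (Term.var 0, Term.var 1) (by simp)
        have e : nf (σ 0) = nf (σ 1) := (star _ _ h1).trans (star _ _ h2).symm
        simp [OO, Term.subst, nf, e]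
    | arg f ts i u _ ih2 =>
      cases f with
      | o =>
        have : ∀ j, nf (Function.update ts i u j) = nf (ts j) := by
          intro j
          by_cases hj : j = i
          · subst hj; simp [ih2]
          · simp [Function.update_of_ne hj]
        rw [nf, nf, this 0, this 1]

theorem nf2 (s : L2.Term ℕ) (h : ∀ u, ¬ Rew R2 s u) : nf s = s := by
  induction s with
  | var x => rfl
  | func f ts ih =>
    cases f with
    | o =>
      have e : ∀ j, nf (ts j) = ts j := by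
        intro j
        apply ih
        rintro u ⟨n, hn⟩
        cases n with
        | zero => exact hn.elim
        | succ n => exact h _ ⟨n + 1, Ctx.arg _ ts j u hn⟩
      have e2 : Term.func (L := L2) S2.o ts = OO (ts 0) (ts 1) := by
        unfold OO; congr 1; ext i; fin_cases i <;> rfl
      rw [nf, e 0, e 1]
      split_ifs with h01
      · refine (h (ts 0) ⟨1, Ctx.root ⟨⟨OO (Term.var 0) (Term.var 1), Term.var 0,
          [(Term.var 0, Term.var 1)]⟩, by simp [R2], fun _ => ts 0, ?_, rfl, ?_⟩⟩).elim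
        · rw [e2, ← h01]
          simp only [OO, Term.subst]
          congr 1
          ext i; fin_cases i <;> rfl
        · intro p hp
          simp only [List.mem_singleton] at hp
          subst hp
          exact ⟨ts 0, .refl, .refl⟩
      · exact e2.symm

theorem un2 : UN R2 := by
  intro s t hs ht h
  have key : nf s = nf t := by
    clear hs ht
    induction h with
    | rel a b h => obtain ⟨n, h⟩ := h; exact step2 n a b h
    | refl => rfl
    | symm _ _ _ ih => exact ih.symm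
    | trans _ _ _ _ _ ih1 ih2 => exact ih1.trans ih2
  rwa [nf2 s hs, nf2 t ht] at key

abbrev L3 : FirstOrder.Language.{0, 0} := L1.sum L2
def K3 (i : Fin 7) : L3.Term ℕ := Term.func (L := L3) (Sum.inl (S1.k i)) ![]
def O3 : L3.Term ℕ := Term.func (L := L3) (Sum.inr S2.o) ![K3 0, K3 1]
def F3 : L3.Term ℕ := Term.func (L := L3) (Sum.inl S1.F) ![O3]

theorem K3_eq (i : Fin 7) (σ : ℕ → L3.Term ℕ) :
    (LHom.sumInl.onTerm (K i) : L3.Term ℕ).subst σ = K3 i := by
  simp only [K, K3, LHom.onTerm, Term.subst]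
  congr 1; exact Subsingleton.elim _ _

theorem red3 (n : ℕ) (i j : Fin 7) (h : (⟨K i, K j, []⟩ : Rule L1) ∈ R1) :
    Step (disjUnion R1 R2) (n + 1) (K3 i) (K3 j) :=
  Ctx.root ⟨_, Or.inl ⟨_, h, rfl⟩, Term.var, (K3_eq _ _).symm, (K3_eq _ _).symm,
    by simp [Rule.map]⟩

theorem O3_eq : O3 = (LHom.sumInr.onTerm (OO (Term.var 0) (Term.var 1)) : L3.Term ℕ).subst
    (fun x => if x = 0 then K3 0 else K3 1) := by
  simp only [O3, OO, LHom.onTerm, Term.subst]
  congr 1
  ext i; fin_cases i <;> rfl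

theorem F3_eq : F3 = (LHom.sumInl.onTerm (FF (Term.var 0)) : L3.Term ℕ).subst (fun _ => O3) := by
  simp only [F3, FF, LHom.onTerm, Term.subst]
  congr 1
  ext i; fin_cases i; rfl

theorem redO (i : Fin 2) : Step (disjUnion R1 R2) 2 O3 (K3 ⟨i.1, by omega⟩) := by
  refine Ctx.root ⟨_, Or.inr ⟨⟨OO (Term.var 0) (Term.var 1), Term.var i.1,
    [(Term.var 0, Term.var 1)]⟩, by fin_cases i <;> simp [R2], rfl⟩, _, O3_eq,
    by fin_cases i <;> rfl, ?_⟩
  intro p hp
  simp only [Rule.map, List.map_cons, List.map_nil, List.mem_singleton] at hp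
  subst hp
  exact ⟨K3 4, .single (red3 0 0 4 (by simp [R1])), .single (red3 0 1 4 (by simp [R1]))⟩

theorem redA : Rew (disjUnion R1 R2) F3 (K3 5) :=
  ⟨1, Ctx.root ⟨_, Or.inl ⟨⟨FF (Term.var 0), K 5, []⟩, by simp [R1], rfl⟩, _, F3_eq,
    (K3_eq _ _).symm, by simp [Rule.map]⟩⟩

theorem redB : Rew (disjUnion R1 R2) F3 (K3 6) := by
  refine ⟨3, Ctx.root ⟨_, Or.inl ⟨⟨FF (Term.var 0), K 6,
    [(Term.var 0, K 2), (Term.var 0, K 3)]⟩, by simp [R1], rfl⟩, _, F3_eq, (K3_eq _ _).symm, ?_⟩⟩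
  intro p hp
  simp only [Rule.map, List.map_cons, List.map_nil, List.mem_cons, List.not_mem_nil,
    or_false] at hp
  rcases hp with rfl | rfl
  · refine ⟨K3 2, (Relation.ReflTransGen.single (redO 0)).tail (red3 1 0 2 (by simp [R1])), ?_⟩
    simp only [K3_eq]; exact .refl
  · refine ⟨K3 3, (Relation.ReflTransGen.single (redO 1)).tail (red3 1 1 3 (by simp [R1])), ?_⟩
    simp only [K3_eq]; exact .refl

def hd3 : L3.Term ℕ → ℕ
  | Term.var _ => 9
  | Term.func (Sum.inl (S1.k i)) _ => i.1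
  | Term.func (Sum.inl S1.F) _ => 7
  | Term.func (Sum.inr S2.o) _ => 8

theorem nf3 (s u : L3.Term ℕ) (h : Rew (disjUnion R1 R2) s u) : hd3 s ≠ 5 ∧ hd3 s ≠ 6 := by
  obtain ⟨n, h⟩ := h
  cases n with
  | zero => exact h.elim
  | succ n =>
    cases h with
    | root h =>
      obtain ⟨ρ, hρ, σ, rfl, rfl, -⟩ := h
      rcases hρ with ⟨ρ, hρ, rfl⟩ | ⟨ρ, hρ, rfl⟩
      · simp only [R1, Set.mem_insert_iff, Set.mem_singleton_iff] at hρ
        rcases hρ with rfl | rfl | rfl | rfl | rfl | rfl | rfl | rfl | rfl <;>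
          simp [Rule.map, K, FF, LHom.onTerm, Term.subst, hd3, LHom.sumInl]
      · simp only [R2, Set.mem_insert_iff, Set.mem_singleton_iff] at hρ
        rcases hρ with rfl | rfl <;>
          simp [Rule.map, OO, LHom.onTerm, Term.subst, hd3, LHom.sumInr]
    | arg f ts i u _ =>
      rcases f with f | f
      · cases f with
        | k j => exact i.elim0
        | F => simp [hd3]
      · cases f with
        | o => simp [hd3]

theorem result : ∃ (L L' : FirstOrder.Language.{0, 0}) (R : Set (Rule L)) (S : Set (Rule L')),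
    Proper R ∧ Proper S ∧ UN R ∧ UN S ∧ ¬ UN (disjUnion R S) := by
  refine ⟨L1, L2, R1, R2, proper1, proper2, un1, un2, fun h => ?_⟩
  have := h (K3 5) (K3 6) (fun u hu => (nf3 _ u hu).1 rfl) (fun u hu => (nf3 _ u hu).2 rfl)
    (.trans _ F3 _ (.symm _ _ (.rel _ _ redA)) (.rel _ _ redB))
  have h2 := congrArg hd3 this
  simp [hd3, K3] at h2

end Pool.Agent.Results.MP_a6fba8_lc.NotModular
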